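import Pool.Agent.H.MP_8aa36a_lc.F

namespace Pool.Agent.Results.MP_8aa36a_lc.Hard

open Pool.Agent.Lib.CX Pool.Agent.Lib.ER Pool.Agent.H.MP_8aa36a_lc

theorem result : Red ETR fun a : {a : CG // Valid a} => Faithful a.1 := by
  have v0 : Valid (cg 0 fun _ _ => 0) := valid_cg ⟨by simp, by simp, by simp, by simp⟩
  have hv : ∀ a : List Unit × List Q4, Valid (if 0 < a.1.length ∧ ∀ e ∈ a.2, e.1 < a.1.length ∧ e.2.1 < a.1.length ∧
      e.2.2.1 < a.1.length ∧ e.2.2.2 < a.1.length then red a else cg 0 fun _ _ => 0) := fun a => by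
    split_ifs with h
    · exact valid_cg (tri_ok h.1 h.2).toNb
    · exact v0
  have := pt_red
  refine etr_of_dq (fun a => ⟨_, hv a⟩) (PT.subtype (by fun_prop) hv) fun M E h0 hE => ?_
  have c : 0 < M.length ∧ ∀ e ∈ E, e.1 < M.length ∧ e.2.1 < M.length ∧ e.2.2.1 < M.length ∧ e.2.2.2 < M.length :=
    ⟨h0, hE⟩
  simp only [if_pos c]
  have t := (tri_ok h0 hE).toNb
  refine ⟨fun ⟨x, x0, mono, hx⟩ => of_co t (complete h0 hE x0 (fun i hi => ?_) hx),
    fun h => sound h0 hE (co_of t (by unfold HH; omega) h)⟩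
  rcases Nat.eq_zero_or_pos i with rfl | h
  · exact x0.ge
  · exact x0 ▸ (mono 0 i h hi).le

end Pool.Agent.Results.MP_8aa36a_lc.Hard
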